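import Mathlib

open Set Filter Topology

namespace Pool.Agent.Results.MP_0256c3_gt.NotSuperadic

universe u v

/-- `P` is a closed subbase of `X`: its members are closed, and every closed set is an
intersection of finite unions of members of `P`. -/
def IsClosedSubbase {X : Type v} [TopologicalSpace X] (P : Set (Set X)) : Prop :=
  (∀ A ∈ P, IsClosed A) ∧ ∀ C : Set X, IsClosed C → ∃ 𝓕 : Set (Set X),
    (∀ F ∈ 𝓕, ∃ G : Set (Set X), G ⊆ P ∧ G.Finite ∧ F = ⋃₀ G) ∧ C = ⋂₀ 𝓕

/-- A family of sets is linked if any two of its members intersect. -/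
def Linked {X : Type v} (L : Set (Set X)) : Prop := ∀ A ∈ L, ∀ B ∈ L, (A ∩ B).Nonempty

/-- A space is supercompact if it has a binary closed subbase: one in which every linked
subfamily has nonempty intersection. -/
def IsSupercompact (X : Type v) [TopologicalSpace X] : Prop :=
  ∃ P : Set (Set X), IsClosedSubbase P ∧ ∀ L ⊆ P, Linked L → (⋂₀ L).Nonempty

/-- `K` is superadic: a continuous image of a supercompact compact Hausdorff space. -/
def IsSuperadic (K : Type u) [TopologicalSpace K] : Prop :=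
  ∃ (S : Type v) (_ : TopologicalSpace S) (f : S → K), CompactSpace S ∧ T2Space S ∧
    IsSupercompact S ∧ Continuous f ∧ Function.Surjective f

/-- `K` is Eberlein compact: compact Hausdorff and homeomorphic to a subspace of some real Banach
space with its weak topology. -/
def IsEberleinCompact (K : Type u) [TopologicalSpace K] : Prop :=
  CompactSpace K ∧ T2Space K ∧ ∃ (E : Type u) (_ : NormedAddCommGroup E) (_ : NormedSpace ℝ E)
    (_ : CompleteSpace E) (e : K → WeakSpace ℝ E), IsEmbedding e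

/-! ### A clopen set is a finite union of intersections of subbasic sets -/

lemma clopen_decomp {S : Type v} [TopologicalSpace S] [CompactSpace S] {P : Set (Set S)}
    (hP : IsClosedSubbase P) {C : Set S} (hC : IsClopen C) :
    ∃ (n : ℕ) (Q : ℕ → Set (Set S)), (∀ i, Q i ⊆ P) ∧ ∀ s, s ∈ C ↔ ∃ i < n, s ∈ ⋂₀ Q i := by
  have hcomp : IsCompact (Cᶜ) := hC.compl.isClosed.isCompact
  obtain ⟨𝓕, h𝓕, hCF⟩ := hP.2 C hC.isClosed
  have key : ∃ 𝒬 : Set (Set (Set S)), 𝒬.Finite ∧ (∀ Q ∈ 𝒬, Q ⊆ P) ∧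
      (∀ s ∈ C, ∃ Q ∈ 𝒬, s ∈ ⋂₀ Q) ∧ ∀ s ∈ Cᶜ, ¬ ∃ Q ∈ 𝒬, s ∈ ⋂₀ Q := by
    refine hcomp.induction_on (p := fun T => ∃ 𝒬 : Set (Set (Set S)), 𝒬.Finite ∧
      (∀ Q ∈ 𝒬, Q ⊆ P) ∧ (∀ s ∈ C, ∃ Q ∈ 𝒬, s ∈ ⋂₀ Q) ∧ ∀ s ∈ T, ¬ ∃ Q ∈ 𝒬, s ∈ ⋂₀ Q)
      ?_ ?_ ?_ ?_
    · exact ⟨{∅}, finite_singleton _, by simp, by simp, by simp⟩
    · rintro s t hst ⟨𝒬, h1, h2, h3, h4⟩
      exact ⟨𝒬, h1, h2, h3, fun x hx => h4 x (hst hx)⟩
    · rintro s t ⟨𝒬, h1, h2, h3, h4⟩ ⟨𝒬', h1', h2', h3', h4'⟩
      refine ⟨image2 (· ∪ ·) 𝒬 𝒬', h1.image2 _ h1', ?_, ?_, ?_⟩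
      · rintro _ ⟨Q, hQ, Q', hQ', rfl⟩
        exact union_subset (h2 Q hQ) (h2' Q' hQ')
      · intro x hx
        obtain ⟨Q, hQ, hxQ⟩ := h3 x hx
        obtain ⟨Q', hQ', hxQ'⟩ := h3' x hx
        refine ⟨Q ∪ Q', ⟨Q, hQ, Q', hQ', rfl⟩, ?_⟩
        rw [sInter_union]; exact ⟨hxQ, hxQ'⟩
      · rintro x hx ⟨_, ⟨Q, hQ, Q', hQ', rfl⟩, hxQ⟩
        have hxQ2 : x ∈ ⋂₀ (Q ∪ Q') := hxQ
        rw [sInter_union] at hxQ2
        rcases hx with hx | hx
        · exact h4 x hx ⟨Q, hQ, hxQ2.1⟩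
        · exact h4' x hx ⟨Q', hQ', hxQ2.2⟩
    · intro x hx
      have : x ∉ ⋂₀ 𝓕 := by rw [← hCF]; exact hx
      simp only [mem_sInter, not_forall] at this
      obtain ⟨F, hF, hxF⟩ := this
      obtain ⟨G, hGP, hGf, rfl⟩ := h𝓕 F hF
      have hcl : IsClosed (⋃₀ G) := by
        rw [sUnion_eq_biUnion]
        exact hGf.isClosed_biUnion fun A hA => hP.1 A (hGP hA)
      refine ⟨(⋃₀ G)ᶜ, mem_nhdsWithin_of_mem_nhds (hcl.isOpen_compl.mem_nhds hxF),
        (fun A => {A}) '' G, hGf.image _, ?_, ?_, ?_⟩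
      · rintro _ ⟨A, hA, rfl⟩
        simpa using hGP hA
      · intro s hs
        rw [hCF] at hs
        obtain ⟨A, hA, hsA⟩ := hs _ hF
        exact ⟨{A}, ⟨A, hA, rfl⟩, by simpa using hsA⟩
      · rintro s hs ⟨_, ⟨A, hA, rfl⟩, hsA⟩
        exact hs ⟨A, hA, by simpa using hsA⟩
  obtain ⟨𝒬, h1, h2, h3, h4⟩ := key
  obtain ⟨n, g, -, hg⟩ := h1.fin_param
  refine ⟨n, fun i => if h : i < n then g ⟨i, h⟩ else ∅, ?_, ?_⟩
  · intro i
    by_cases h : i < n
    · simp only [h, dif_pos]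
      exact h2 _ (hg ▸ mem_range_self _)
    · simp [h]
  · intro s
    constructor
    · intro hs
      obtain ⟨Q, hQ, hsQ⟩ := h3 s hs
      rw [← hg] at hQ
      obtain ⟨i, rfl⟩ := hQ
      exact ⟨i, i.2, by simpa using hsQ⟩
    · rintro ⟨i, hi, hs⟩
      by_contra hsC
      refine h4 s hsC ⟨g ⟨i, hi⟩, hg ▸ mem_range_self _, ?_⟩
      simpa [hi] using hs

/-! ### The index set and the adequate family -/

/-- The Cantor set, used as an index set. -/
abbrev Γ := ℕ → Bool

lemma uncountable_Γ : ¬ Countable Γ := by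
  intro h
  obtain ⟨f, hf⟩ := exists_injective_nat Γ
  classical
  refine Function.cantor_injective (fun s : Set ℕ => f (fun n => decide (n ∈ s))) ?_
  intro s t hst
  have := hf hst
  ext n
  have h2 := congrFun this n
  simpa using h2

/-- A finite set of points of the Cantor set all agreeing on as many coordinates as the set has
elements. -/
def Good (A : Set Γ) : Prop := A.Finite ∧ ∀ x ∈ A, ∀ y ∈ A, ∀ i < A.ncard, x i = y i

lemma Good.mono {A B : Set Γ} (hB : Good B) (h : A ⊆ B) : Good A :=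
  ⟨hB.1.subset h, fun x hx y hy i hi =>
    hB.2 x (h hx) y (h hy) i (hi.trans_le (ncard_le_ncard h hB.1))⟩

lemma good_of_finite_subsets {B : Set Γ} (h : ∀ A ⊆ B, A.Finite → Good A) : Good B := by
  by_cases hB : B.Finite
  · exact h B Subset.rfl hB
  · exfalso
    have hBi : B.Infinite := hB
    obtain ⟨x, hx, y, hy, hxy⟩ := hBi.nontrivial
    obtain ⟨i, hi⟩ := Function.ne_iff.mp hxy
    obtain ⟨T, hTB, hTf, hT⟩ := hBi.exists_subset_ncard_eq (i + 1)
    have hfin : (insert x (insert y T)).Finite := (hTf.insert y).insert x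
    have hg := h (insert x (insert y T)) (by
      intro z hz
      rcases hz with rfl | rfl | hz
      · exact hx
      · exact hy
      · exact hTB hz) hfin
    refine hi (hg.2 x (by simp) y (by simp) i ?_)
    have : T.ncard ≤ (insert x (insert y T)).ncard :=
      ncard_le_ncard (fun z hz => Or.inr (Or.inr hz)) hfin
    omega

/-- The compact space: characteristic functions of good sets. -/
def KK : Set (Γ → Bool) := {k | Good {γ | k γ = true}}

lemma isClosed_KK : IsClosed KK := by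
  rw [← isOpen_compl_iff, isOpen_iff_mem_nhds]
  intro k hk
  have : ¬ ∀ A ⊆ {γ | k γ = true}, A.Finite → Good A := fun h => hk (good_of_finite_subsets h)
  push Not at this
  obtain ⟨A, hA, hAf, hAg⟩ := this
  have hopen : IsOpen {k' : Γ → Bool | ∀ γ ∈ A, k' γ = true} := by
    have : {k' : Γ → Bool | ∀ γ ∈ A, k' γ = true} = ⋂ γ ∈ A, {k' | k' γ = true} := by
      ext k'; simp
    rw [this]
    refine hAf.isOpen_biInter fun γ _ => ?_
    exact (isOpen_discrete ({true} : Set Bool)).preimage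
      (continuous_apply (A := fun _ : Γ => Bool) γ)
  refine mem_of_superset (hopen.mem_nhds (fun γ hγ => hA hγ)) ?_
  intro k' hk' hk''
  exact hAg (Good.mono (B := {γ | k' γ = true}) hk'' (fun γ hγ => hk' γ hγ))

instance : CompactSpace KK := isCompact_iff_compactSpace.mp isClosed_KK.isCompact

/-! ### The space is not superadic -/

lemma core {S : Type v} (P : Set (Set S)) (hP : ∀ L ⊆ P, Linked L → (⋂₀ L).Nonempty)
    (V : Γ → Set S)
    (hV : ∀ γ, ∃ (n : ℕ) (Q : ℕ → Set (Set S)), (∀ i, Q i ⊆ P) ∧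
      ∀ s, s ∈ V γ ↔ ∃ i < n, s ∈ ⋂₀ Q i)
    (hgood : ∀ A, Good A → ∃ s, ∀ γ ∈ A, s ∈ V γ)
    (hinf : ∀ H : Set Γ, H.Infinite → ∀ s, ¬ ∀ γ ∈ H, s ∈ V γ) : False := by
  choose N Q hQP hQ using hV
  -- an infinite class on which `N` is constant
  obtain ⟨n, hn⟩ : ∃ n, {γ | N γ = n}.Infinite := by
    by_contra hcon
    push Not at hcon
    apply uncountable_Γ
    rw [← Set.countable_univ_iff]
    have : (univ : Set Γ) = ⋃ n, {γ | N γ = n} := by ext γ; simp
    rw [this]
    exact countable_iUnion fun n => (hcon n).countable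
  have : Infinite {γ | N γ = n} := hn.to_subtype
  obtain ⟨r, hr⟩ := Finite.exists_infinite_fiber
    (fun γ : {γ | N γ = n} => fun i : Fin (n + 1) => γ.1 i)
  have := hr
  let emb := Infinite.natEmbedding
    ((fun γ : {γ | N γ = n} => fun i : Fin (n + 1) => γ.1 i) ⁻¹' {r})
  let h : ℕ → Γ := fun m => (emb m).1.1
  have hinj : Function.Injective h := fun a b hab =>
    emb.injective (Subtype.ext (Subtype.ext hab))
  have hN : ∀ m, N (h m) = n := fun m => (emb m).1.2
  have hagree : ∀ a b, ∀ i < n + 1, h a i = h b i := by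
    intro a b i hi
    have h1 := congrFun (emb a).2 ⟨i, hi⟩
    have h2 := congrFun (emb b).2 ⟨i, hi⟩
    exact h1.trans h2.symm
  let R : ℕ → ℕ → ℕ → Prop := fun k a b => (⋂₀ Q (h a) k ∩ ⋂₀ Q (h b) k).Nonempty
  by_cases hcase : ∃ k < n, ∀ᶠ a in (hyperfilter ℕ : Filter ℕ),
      ∀ᶠ b in (hyperfilter ℕ : Filter ℕ), R k a b
  · obtain ⟨k, hk, hR⟩ := hcase
    obtain ⟨f, -, hf⟩ := exists_seq_of_forall_finset_exists
      (fun a => ∀ᶠ b in (hyperfilter ℕ : Filter ℕ), R k a b)
      (fun a b => R k a b ∧ a < b) (by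
        intro s hs
        have h1 : ∀ᶠ b in (hyperfilter ℕ : Filter ℕ), ∀ x ∈ s, R k x b :=
          (Filter.eventually_all_finset s).2 hs
        have h2 : ∀ᶠ b in (hyperfilter ℕ : Filter ℕ), ∀ x ∈ s, x < b :=
          (Filter.eventually_all_finset s).2 fun x _ =>
            (Nat.hyperfilter_le_atTop) (eventually_gt_atTop x)
        obtain ⟨y, hy1, hy2, hy3⟩ := (hR.and (h1.and h2)).exists
        exact ⟨y, hy1, fun x hx => ⟨hy2 x hx, hy3 x hx⟩⟩)
    have hfm : StrictMono f := strictMono_nat_of_lt_succ fun m => (hf m (m + 1) (by omega)).2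
    have hR' : ∀ i j, i < j → R k (f i) (f j) := fun i j hij => (hf i j hij).1
    have hlink : Linked (⋃ i, Q (h (f i)) k) := by
      intro A hA B hB
      obtain ⟨i, hi⟩ := mem_iUnion.mp hA
      obtain ⟨j, hj⟩ := mem_iUnion.mp hB
      rcases lt_trichotomy i j with hij | rfl | hij
      · obtain ⟨s, hs1, hs2⟩ := hR' i j hij
        exact ⟨s, hs1 A hi, hs2 B hj⟩
      · obtain ⟨s, hs1, hs2⟩ := hR' i (i + 1) (by omega)
        exact ⟨s, hs1 A hi, hs1 B hj⟩
      · obtain ⟨s, hs1, hs2⟩ := hR' j i hij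
        exact ⟨s, hs2 A hi, hs1 B hj⟩
    obtain ⟨s, hs⟩ := hP _ (iUnion_subset fun i => hQP _ _) hlink
    refine hinf (range fun i => h (f i)) ?_ s ?_
    · exact infinite_range_of_injective (hinj.comp hfm.injective)
    · rintro _ ⟨i, rfl⟩
      rw [hQ]
      exact ⟨k, (hN (f i)).symm ▸ hk, fun A hA => hs A (mem_iUnion.mpr ⟨i, hA⟩)⟩
  · push Not at hcase
    have hB : ∀ᶠ a in (hyperfilter ℕ : Filter ℕ),
        ∀ᶠ b in (hyperfilter ℕ : Filter ℕ), ∀ k ∈ Finset.range n, ¬ R k a b := by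
      have h1 : ∀ᶠ a in (hyperfilter ℕ : Filter ℕ), ∀ k ∈ Finset.range n,
          ∀ᶠ b in (hyperfilter ℕ : Filter ℕ), ¬ R k a b :=
        (Filter.eventually_all_finset _).2 fun k hk => hcase k (Finset.mem_range.mp hk)
      exact h1.mono fun a ha => (Filter.eventually_all_finset _).2 ha
    obtain ⟨f, -, hf⟩ := exists_seq_of_forall_finset_exists
      (fun a => ∀ᶠ b in (hyperfilter ℕ : Filter ℕ), ∀ k ∈ Finset.range n, ¬ R k a b)
      (fun a b => (∀ k ∈ Finset.range n, ¬ R k a b) ∧ a < b) (by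
        intro s hs
        have h1 : ∀ᶠ b in (hyperfilter ℕ : Filter ℕ), ∀ x ∈ s, ∀ k ∈ Finset.range n,
            ¬ R k x b := (Filter.eventually_all_finset s).2 hs
        have h2 : ∀ᶠ b in (hyperfilter ℕ : Filter ℕ), ∀ x ∈ s, x < b :=
          (Filter.eventually_all_finset s).2 fun x _ =>
            (Nat.hyperfilter_le_atTop) (eventually_gt_atTop x)
        obtain ⟨y, hy1, hy2, hy3⟩ := (hB.and (h1.and h2)).exists
        exact ⟨y, hy1, fun x hx => ⟨hy2 x hx, hy3 x hx⟩⟩)
    have hfm : StrictMono f := strictMono_nat_of_lt_succ fun m => (hf m (m + 1) (by omega)).2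
    have hgi : Function.Injective fun i => h (f i) := hinj.comp hfm.injective
    set A : Set Γ := (fun i => h (f i)) '' (Finset.range (n + 1) : Set ℕ) with hA
    have hAc : A.ncard = n + 1 := by
      rw [hA, ncard_image_of_injective _ hgi, ncard_coe_finset, Finset.card_range]
    obtain ⟨s, hs⟩ := hgood A ⟨(Finset.finite_toSet _).image _, by
      rintro _ ⟨a, -, rfl⟩ _ ⟨b, -, rfl⟩ i hi
      exact hagree _ _ i (hAc ▸ hi)⟩
    have hk : ∀ i ∈ Finset.range (n + 1), ∃ k < n, s ∈ ⋂₀ Q (h (f i)) k := by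
      intro i hi
      have := (hQ _ s).1 (hs _ ⟨i, by simpa using hi, rfl⟩)
      rwa [hN] at this
    choose! κ hκ1 hκ2 using hk
    obtain ⟨i, hi, j, hj, hij, hκ⟩ := Finset.exists_ne_map_eq_of_card_lt_of_maps_to
      (s := Finset.range (n + 1)) (t := Finset.range n) (by simp) (f := κ)
      (fun i hi => by simpa using hκ1 i hi)
    rcases lt_or_gt_of_ne hij with hlt | hlt
    · exact (hf i j hlt).1 (κ i) (by simpa using hκ1 i hi) ⟨s, hκ2 i hi, hκ ▸ hκ2 j hj⟩
    · exact (hf j i hlt).1 (κ i) (by simpa using hκ1 i hi) ⟨s, hκ ▸ hκ2 j hj, hκ2 i hi⟩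

lemma not_superadic : ¬ IsSuperadic.{0, v} KK := by
  rintro ⟨S, _, f, _, _, ⟨P, hP, hbin⟩, hf, hsurj⟩
  refine core P hbin (fun γ => f ⁻¹' {k | k.1 γ = true}) ?_ ?_ ?_
  · intro γ
    refine clopen_decomp hP (IsClopen.preimage ?_ hf)
    exact (isClopen_discrete {true}).preimage ((continuous_apply γ).comp continuous_subtype_val)
  · intro A hA
    classical
    obtain ⟨s, hs⟩ := hsurj ⟨fun γ => decide (γ ∈ A), by
      have : {γ | decide (γ ∈ A) = true} = A := by ext; simp
      show Good {γ | decide (γ ∈ A) = true}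
      rw [this]; exact hA⟩
    refine ⟨s, fun γ hγ => ?_⟩
    show (f s).1 γ = true
    rw [hs]; simpa using hγ
  · intro H hH s hs
    have : Good {γ | (f s).1 γ = true} := (f s).2
    exact hH (this.1.subset fun γ hγ => hs γ hγ)

/-! ### The space is Eberlein compact -/

open scoped ENNReal

/-- The Banach space of bounded real functions on the index set. -/
abbrev EE := lp (fun _ : Γ => ℝ) ∞

/-- The characteristic function of a good set, as a bounded function. -/
noncomputable def ev (k : KK) : EE :=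
  ⟨fun γ => if k.1 γ = true then 1 else 0, by
    refine memℓp_infty ⟨1, ?_⟩
    rintro _ ⟨γ, rfl⟩
    dsimp only
    split_ifs <;> simp⟩

lemma ev_apply (k : KK) (γ : Γ) : (ev k : Γ → ℝ) γ = if k.1 γ = true then 1 else 0 := rfl

open Classical in
/-- Unit vectors. -/
noncomputable def e1 (γ : Γ) : EE := lp.single ∞ γ (1 : ℝ)

lemma e1_apply (γ δ : Γ) [Decidable (δ = γ)] :
    (e1 γ : Γ → ℝ) δ = if δ = γ then 1 else 0 := by
  classical
  rw [e1, lp.single_apply, Pi.single_apply]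
  split_ifs <;> rfl

lemma summable_coeff (φ : EE →L[ℝ] ℝ) : Summable fun γ => ‖φ (e1 γ)‖ := by
  classical
  refine summable_of_sum_le (c := ‖φ‖) (fun _ => norm_nonneg _) fun F => ?_
  set w : EE := ∑ γ ∈ F, (SignType.sign (φ (e1 γ)) : ℝ) • e1 γ with hw
  have h1 : φ w = ∑ γ ∈ F, ‖φ (e1 γ)‖ := by
    rw [hw, map_sum]
    refine Finset.sum_congr rfl fun γ _ => ?_
    rw [map_smul, smul_eq_mul, sign_mul_self, Real.norm_eq_abs]
  have h2 : ‖w‖ ≤ 1 := by
    refine lp.norm_le_of_forall_le zero_le_one fun δ => ?_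
    have : (w : Γ → ℝ) δ = ∑ γ ∈ F, (SignType.sign (φ (e1 γ)) : ℝ) * (if δ = γ then 1 else 0) := by
      rw [hw, lp.coeFn_sum, Finset.sum_apply]
      refine Finset.sum_congr rfl fun γ _ => ?_
      rw [lp.coeFn_smul, Pi.smul_apply, e1_apply, smul_eq_mul]
    rw [this]
    simp only [mul_ite, mul_one, mul_zero, Finset.sum_ite_eq]
    split_ifs
    · rcases lt_trichotomy (φ (e1 δ)) 0 with h | h | h <;> simp [h]
    · simp
  calc ∑ γ ∈ F, ‖φ (e1 γ)‖ = φ w := h1.symm
    _ ≤ ‖φ w‖ := le_abs_self _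
    _ ≤ ‖φ‖ * ‖w‖ := φ.le_opNorm w
    _ ≤ ‖φ‖ * 1 := by gcongr
    _ = ‖φ‖ := mul_one _

lemma apply_ev (φ : EE →L[ℝ] ℝ) (k : KK) :
    φ (ev k) = ∑' γ, (if k.1 γ = true then φ (e1 γ) else 0) := by
  classical
  have hfin : {γ | k.1 γ = true}.Finite := k.2.1
  have h1 : ev k = ∑ γ ∈ hfin.toFinset, e1 γ := by
    apply lp.ext
    funext δ
    rw [lp.coeFn_sum, Finset.sum_apply, ev_apply]
    simp only [e1_apply, Finset.sum_ite_eq, Set.Finite.mem_toFinset]
    rfl
  rw [h1, map_sum, tsum_eq_sum (s := hfin.toFinset)]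
  · refine Finset.sum_congr rfl fun γ hγ => ?_
    rw [if_pos]
    simpa using hγ
  · intro γ hγ
    rw [if_neg]
    simpa using hγ

lemma continuous_apply_ev (φ : EE →L[ℝ] ℝ) : Continuous fun k : KK => φ (ev k) := by
  simp only [apply_ev]
  refine continuous_tsum (fun γ => ?_) (summable_coeff φ) ?_
  · have : Continuous fun b : Bool => if b = true then φ (e1 γ) else 0 :=
      continuous_of_discreteTopology
    exact this.comp ((continuous_apply (A := fun _ : Γ => Bool) γ).comp continuous_subtype_val)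
  · intro γ k
    split_ifs <;> simp

/-- The embedding into the Banach space with its weak topology. -/
noncomputable def emb (k : KK) : WeakSpace ℝ EE := toWeakSpace ℝ EE (ev k)

lemma continuous_emb : Continuous emb :=
  WeakBilin.continuous_of_continuous_eval _ fun φ => continuous_apply_ev φ

lemma injective_emb : Function.Injective emb := by
  intro k l hkl
  have h : ev k = ev l := (toWeakSpace ℝ EE).injective hkl
  ext γ
  have h2 := congrArg (fun x : EE => (x : Γ → ℝ) γ) h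
  simp only [ev_apply] at h2
  by_cases hk : k.1 γ = true <;> by_cases hl : l.1 γ = true <;> simp_all

lemma isEberleinCompact : IsEberleinCompact.{0} KK :=
  ⟨inferInstance, inferInstance, EE, inferInstance, inferInstance, inferInstance, emb,
    (continuous_emb.isClosedEmbedding injective_emb).isEmbedding⟩

/-- There is an Eberlein compact space that is not a continuous image of any supercompact
compact Hausdorff space. -/
theorem result : ∃ (K : Type) (_ : TopologicalSpace K),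
    IsEberleinCompact.{0} K ∧ ¬ IsSuperadic.{0, v} K :=
  ⟨KK, inferInstance, isEberleinCompact, not_superadic⟩

end Pool.Agent.Results.MP_0256c3_gt.NotSuperadic
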